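import Pool.Agent.V11111.BE.Build

open MeasureTheory Set Filter Topology

namespace Pool.Agent.Results.MP_d3ee63_an.ContinuumBalanced

open Pool.Agent.V11111.BE

/-- Let `β > 2` be real (in particular, any non-integer `β > 2`) and `m = ⌊β⌋`. For Lebesgue
almost every `x` of `I_β = [0, m / (β - 1)]` the set of all balanced `β`-expansions of `x` over
the alphabet `{0, …, m}` has the cardinality of the continuum. -/
theorem result (β : ℝ) (hβ : 2 < β) :
    ∀ᵐ x ∂(volume.restrict (Icc (0 : ℝ) (⌊β⌋₊ / (β - 1)))),
      Cardinal.mk {ε : ℕ → ℕ // IsExpansion β x ε ∧ Balanced β ε} = Cardinal.continuum :=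
  main β hβ

end Pool.Agent.Results.MP_d3ee63_an.ContinuumBalanced
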